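import Pool.Agent.H45.AC.Adm

/-!
# Project FULL: the phase slip property
-/

set_option autoImplicit false

namespace Pool.Agent.H75.FU

open Filter Topology
open Pool.Agent.H47.ST
open Pool.Agent.H45.AC (shG)

/-- **Phase slip property.** The permutation `γ` acts as the identity on the cohomology of the
pairs (domain, level `b` of `f`), up to a loss `C₀` of the level. -/
def Slip (F : Type*) [Field F] (n K : ℕ) [NeZero K] (γ : Equiv.Perm (Iz n K))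
    (f : (Iz n K → ℝ) → ℝ) (C₀ : ℝ) : Prop :=
  ∀ b₀ : ℝ, ∃ R₀ : ℝ, ∀ R ≥ R₀, ∀ b ≥ b₀, ∀ᶠ M : ℕ in atTop, ∀ j : ℕ,
    ∀ c ∈ co (F := F) (lam (Lc n K) (2 ^ M)) (Xm (qK n K) R (2 ^ M))
      (Lv (qK n K) (QK n K) f R R b (2 ^ M)) (j + 1),
      dX (Xm (qK n K) R (2 ^ M)) c = 0 →
      ∃ y ∈ co (F := F) (lam (Lc n K) (2 ^ M)) (Xm (qK n K) R (2 ^ M))
        (Lv (qK n K) (QK n K) f R R (b - C₀) (2 ^ M)) j,
        c - Tp γ c = dX (Xm (qK n K) R (2 ^ M)) y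

end Pool.Agent.H75.FU
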