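import Pool.Agent.H25.FU.Pco

/-!
# Project FULL: localisation of the `P`-part (interface)
-/

set_option autoImplicit false

namespace Pool.Agent.H75.FU

open Pool.Agent.H47.ST
open Pool.Agent.H25.FU (PS Pk)

variable {ι κ : Type*} [Fintype ι] [Fintype κ]

/-- If the `P`-part of the band `(A, B)` is Tate exact then `γ'` acts as the identity on the
cohomology of the band of the fixed grid. -/
theorem pco {p : ℕ} [Fact p.Prime] {π γ : Equiv.Perm ι} {γ' : Equiv.Perm κ} {s : ι → κ}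
    {L : AddSubgroup (ι → ℤ)} {L' : AddSubgroup (κ → ℤ)} (hc : Cyc π p L) (hs : Fold π s L L')
    {X A B : Set (ι → ℤ)} (hX : PInv π X) (hA : PInv π A) (hB : PInv π B) (hXL : Inv L X)
    (hAL : Inv L A) (hBL : Inv L B) (hAB : A ⊆ B) (hBX : B ⊆ X)
    (hγL : ∀ l ∈ L, l ∘ γ = l) (hγπ : γ * π = π * γ) (hXγ : PInv γ X) (hAγ : PInv γ A)
    (hBγ : PInv γ B) {u k : ℕ} (hk : (k : ZMod p) ≠ 0) (huk : γ ^ (u * k) = 1)
    (hγ' : ∀ i, s ((γ ^ u) i) = γ' (s i))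
    (h : ∀ m, TK (dX (F := ZMod p) X) (ta (ZMod p) π) (nu (ZMod p) π p) m
      (PS (Pk ((Tp (F := ZMod p) γ) ^ u) k) (co (F := ZMod p) L X A))
      (PS (Pk ((Tp (F := ZMod p) γ) ^ u) k) (co (F := ZMod p) L X B)) 0) (j : ℕ) :
    ∀ c ∈ co (F := ZMod p) L' (fo s B) (fo s A) (j + 1), dX (fo s B) c = 0 →
      ∃ y ∈ co (F := ZMod p) L' (fo s B) (fo s A) j, c - Tp γ' c = dX (fo s B) y :=
  Pool.Agent.H25.FU.fixed_slip hc hs hX hA hB hXL hAL hBL hAB hBX hγL hγπ hXγ hAγ hBγ hk huk hγ' h j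

end Pool.Agent.H75.FU
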