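import Pool.Agent.H75.FU.Defs
import Pool.Agent.H47.ST.GrowB
import Pool.Agent.H64.FU.Fin

/-!
# Project FULL: the phase slip property of the action (interface, proved by the PSL team)
-/

set_option autoImplicit false

namespace Pool.Agent.H75.FU

open Filter Topology
open Pool.Agent.H47.QG (Pt Gen)
open Pool.Agent.H47.ST
open Pool.Agent.H45.AC (shG)

/-- **Phase slip lemma.** At an odd level `m` the shift by one period `N` has a loss of level
independent of `m`. -/
theorem slip_fS {n : ℕ} {S : ℕ → Pt n → ℝ} {ψ : ℕ → Pt n → Pt n} (hS : ∀ j, Gen (S j) (ψ j))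
    {N m L : ℕ} (hN : 0 < N) (hm : Odd m) (hL : L = m * N) [NeZero L]
    (hper : ∀ j, S (j + N) = S j) {B : ℝ} (hB : ∀ j z, |S j z| ≤ B)
    (F : Type*) [Field F] {g : (Iz n L → ℝ) → ℝ} {C : ℝ} (hsm : ContDiff ℝ 2 g)
    (hg : PerL (Lc n L) g) (hgr : ∀ y b, |fderiv ℝ g y (Pi.single b 1) - DK n L y b| ≤ C)
    (hinv : ∀ y, g (y ∘ shG n L N) = g y) (hsup : ∀ y, |g y - fS S L y| ≤ 1) :
    Slip F n L (shG n L N) g (4 * N * B + 3) :=
  Pool.Agent.H64.FU.slip_fS hN hm hL hper hB F hsm hg hgr hinv hsup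

end Pool.Agent.H75.FU
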