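import Pool.Agent.H75.FU.Grow
import Pool.Agent.H4.FU.Main

/-!
# Project FULL: every Hamiltonian diffeomorphism of the torus has quadratic growth
-/

set_option autoImplicit false

open Module QuadraticForm Filter Topology Function
open Pool.Agent.H47.QG (Pt Decomp QuadGrowth quadGrowth_of)
open Pool.Agent.H60.QG (Torus projP P)

namespace Pool.Agent.H75.FU

variable {n : ℕ}

/-- **Every Hamiltonian diffeomorphism of the torus has quadratic growth.** -/
theorem full_all {φ : Torus n → Torus n} (hn : 0 < n) {N : ℕ}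
    {S : ℕ → Pt n → ℝ} {ψ : ℕ → Pt n → Pt n} (h : Decomp φ N S ψ) : QuadGrowth φ := by
  have : NeZero N := ⟨h.pos.ne'⟩
  exact quadGrowth_of (growth_full h.gen hn h.perS h.perψ h.sys
    (Pool.Agent.H4.FU.exists_wrongN h.gen hn h.perS h.perψ))

end Pool.Agent.H75.FU
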