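import Pool.Agent.H75.FU.OmL
import Pool.Agent.H75.TH.Tor

/-!
# Project FULL: quadratic growth
-/

set_option autoImplicit false

open Module QuadraticForm Filter Topology Function
open Pool.Agent.H47.QG (Pt action flw oseq Gen ind hess Zn MeanIdx Sys orbs Decomp flw_mul
  flw_add_int ind_map ind_translate Cnt_infinite exists_reps QuadGrowth quadGrowth_of)
open Pool.Agent.H60.QG (Torus projP P)
open Pool.Agent.H47.ST
open Pool.Agent.H75.TH

namespace Pool.Agent.H75.FU

variable {n : ℕ}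

/-- **Quadratic growth** from an alive value without fixed points of the base map. -/
theorem growth_wrongN {S : ℕ → Pt n → ℝ} {f : ℕ → Pt n → Pt n} (hS : ∀ j, Gen (S j) (f j))
    (hn : 0 < n) {N k : ℕ} [NeZero N] [NeZero (k * N)] (hk : Odd k)
    (hper : ∀ j, S (j + N) = S j) (hfper : ∀ j, f (j + N) = f j) {X : Type*} {φ : X → X}
    {π : Pt n → X} (hsys : Sys (flw f N) φ π (Zn n))
    (hWr : Pool.Agent.H4.FU.WrongN S f N k)
    (hfin : ∀ m : ℕ, 0 < m → ∃ W : Finset (Pt n),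
      (∀ w, flw f (m * (k * N)) w = w ↔ ∃ w' ∈ W, w - w' ∈ Zn n) ∧
      ∀ w ∈ W, ∀ w' ∈ W, w - w' ∈ Zn n → w = w') :
    ∃ c' > 0, ∀ᶠ T : ℝ in atTop,
      ENNReal.ofReal (c' * T ^ 2 / Real.log T) ≤ ((orbs φ T).encard : ENNReal) := by
  classical
  obtain ⟨c₁, hc₁, hlev⟩ := omega_level hS hn hk hper hfper hWr hfin
  obtain ⟨p₀, hp₀⟩ := eventually_atTop.1 hlev
  have hN0 : 0 < N := Nat.pos_of_ne_zero (NeZero.ne N)
  have hit : ∀ (m : ℕ) (w : Pt n), flw f (m * (k * N)) w = (flw f N)^[k * m] w := by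
    intro m w
    have e1 : m * (k * N) = (k * m) * N := by ring
    rw [e1, flw_mul hfper]
  have hit1 : ∀ w : Pt n, flw f (k * N) w = (flw f N)^[k] w := fun w => flw_mul hfper k w
  have hind : ∀ m (w e : Pt n), e ∈ Zn n →
      ind S f (m * (k * N)) (w + e) = ind S f (m * (k * N)) w := by
    rintro m w _ ⟨a, b, rfl⟩
    exact ind_translate S f hS _ w a b
  refine Pool.Agent.H47.QG.growth hsys k hk.pos (fun p w => ind S f (p * (k * N)) w) ?_ ?_ c₁
    (c₁ * p₀) hc₁ ?_
  · intro m w hw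
    have e1 : m * (k * N) = (m * k) * N := by ring
    change ind S f (m * (k * N)) (flw f N w) = ind S f (m * (k * N)) w
    rw [e1]
    refine ind_map S f hS N hN0 hper hfper w (m * k) ?_
    rw [← e1, hit]
    exact hw
  · intro m w e he _
    exact hind m w e he
  · intro p hp hD _
    have hpp : p₀ ≤ p := by
      have h1 : (p₀ : ℝ) ≤ p := le_of_mul_le_mul_left hD hc₁
      exact_mod_cast h1
    obtain ⟨W, hW, hWd⟩ := hfin p hp.pos
    refine ⟨(W.filter fun w => flw f (k * N) w ≠ w).image (ind S f (p * (k * N))), ?_, ?_⟩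
    · have h1 := hp₀ p hpp hp
        ((W.filter fun w => flw f (k * N) w ≠ w).image (ind S f (p * (k * N)))).card
        (fun A hA => Finset.card_le_card fun a ha => ?_)
      · have h2 : 0 ≤ c₁ * p₀ := by positivity
        linarith
      · obtain ⟨w, h2, h3, rfl⟩ := hA a ha
        obtain ⟨w', hw', hww⟩ := (hW w).1 h2
        refine Finset.mem_image.2 ⟨w', Finset.mem_filter.2 ⟨hw', fun h4 => h3 ?_⟩, ?_⟩
        · exact LevP_fix_tr hS (k * N) h4 (by rw [← neg_sub]; exact (Zn n).neg_mem hww)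
        · have h5 := hind p w' (w - w') hww
          rw [add_sub_cancel] at h5
          exact h5.symm
    · intro a ha
      obtain ⟨w, hw, rfl⟩ := Finset.mem_image.1 ha
      obtain ⟨hw1, hw2⟩ := Finset.mem_filter.1 hw
      refine ⟨w, ?_, ?_, rfl⟩
      · rw [← hit]
        exact (hW w).2 ⟨w, hw1, by rw [sub_self]; exact (Zn n).zero_mem⟩
      · rw [← hit1]
        exact hw2

/-- Either all powers have finitely many fixed points upstairs modulo the lattice, or the growth is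
trivial. -/
theorem growth_or_finite2 {S : ℕ → Pt n → ℝ} {f : ℕ → Pt n → Pt n} (hS : ∀ j, Gen (S j) (f j))
    {N : ℕ} (hfper : ∀ j, f (j + N) = f j) {X : Type*} {φ : X → X} {π : Pt n → X}
    (hsys : Sys (flw f N) φ π (Zn n)) :
    (∀ m : ℕ, 0 < m → ∃ W : Finset (Pt n), (∀ w, flw f (m * N) w = w ↔ ∃ w' ∈ W, w - w' ∈ Zn n) ∧
      ∀ w ∈ W, ∀ w' ∈ W, w - w' ∈ Zn n → w = w') ∨
    ∃ c' > 0, ∀ᶠ T : ℝ in atTop,
      ENNReal.ofReal (c' * T ^ 2 / Real.log T) ≤ ((orbs φ T).encard : ENNReal) := by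
  classical
  have hit : ∀ (m : ℕ) (w : Pt n), flw f (m * N) w = (flw f N)^[m] w := fun m w =>
    flw_mul hfper m w
  by_cases hfin : ∀ m, 0 < m → (π '' {w | (flw f N)^[m] w = w}).Finite
  · left
    intro m hm
    obtain ⟨W, -, hW, hWd⟩ := exists_reps hsys.ker {w | (flw f N)^[m] w = w}
      (fun w hw e he => by
        change (flw f N)^[m] (w + e) = w + e
        rw [← flw_mul hfper, flw_add_int hS _ _ _ he, flw_mul hfper]
        rw [show (flw f N)^[m] w = w from hw]) (hfin m hm) ∅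
      (fun c hc => absurd hc (Finset.notMem_empty c))
      (fun c hc => absurd hc (Finset.notMem_empty c))
    exact ⟨W, fun w => by rw [hit]; exact hW w, hWd⟩
  · right
    push Not at hfin
    obtain ⟨m, hm, hinf⟩ := hfin
    refine ⟨1, one_pos, ?_⟩
    filter_upwards [eventually_ge_atTop (m : ℝ)] with T hT
    rw [(Cnt_infinite hsys hm hinf hT).encard_eq]
    exact le_top

/-- **Quadratic growth** for the map given by generating functions. -/
theorem growth_full {S : ℕ → Pt n → ℝ} {f : ℕ → Pt n → Pt n} (hS : ∀ j, Gen (S j) (f j))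
    (hn : 0 < n) {N : ℕ} [NeZero N] (hper : ∀ j, S (j + N) = S j)
    (hfper : ∀ j, f (j + N) = f j) {X : Type*} {φ : X → X} {π : Pt n → X}
    (hsys : Sys (flw f N) φ π (Zn n))
    (hW : (∀ m : ℕ, 0 < m → ∃ W : Finset (Pt n),
      (∀ w, flw f (m * N) w = w ↔ ∃ w' ∈ W, w - w' ∈ Zn n) ∧
      ∀ w ∈ W, ∀ w' ∈ W, w - w' ∈ Zn n → w = w') →
      ∃ (k : ℕ) (_ : NeZero (k * N)), Odd k ∧ Pool.Agent.H4.FU.WrongN S f N k) :
    ∃ c' > 0, ∀ᶠ T : ℝ in atTop,
      ENNReal.ofReal (c' * T ^ 2 / Real.log T) ≤ ((orbs φ T).encard : ENNReal) := by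
  rcases growth_or_finite2 hS hfper hsys with h | h
  · obtain ⟨k, hk, hk1, hWr⟩ := hW h
    refine growth_wrongN hS hn hk1 hper hfper hsys hWr fun m hm => ?_
    obtain ⟨W, h1, h2⟩ := h (m * k) (Nat.mul_pos hm hk1.pos)
    refine ⟨W, fun w => ?_, h2⟩
    rw [← mul_assoc]
    exact h1 w
  · exact h

end Pool.Agent.H75.FU
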