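import Pool.Agent.H25.FU.Psub

/-!
# Project FULL: Tate exactness of the `P`-part of a thin band
-/

set_option autoImplicit false

namespace Pool.Agent.H75.FU

open Pool.Agent.H47.ST
open Pool.Agent.H25.FU (PS Pk PSt PC PC_Pk PSt_Pk PS_sub PS_mono PS_le HK_PS TK_PS Slip_PS slip_pow
  slip_TK chain_TK thin_band_TK)

variable {F E : Type*} [Field F] [AddCommGroup E] [Module F E] {d τ ν : E →ₗ[F] E}

/-- **Tate exactness of the `P`-part of the thin band `i₀`.** The levels `Gl m` go down from `i₀` to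
`a`, the levels `Gu m` go down from `b` to `i₀ + 1`. -/
theorem OmB_band (h : Ops d τ ν) (Fi : ℕ → ℕ → Submodule F E)
    (hsub : ∀ i, Sub d τ ν (Fi i)) (hmono : ∀ i j, Fi (i + 1) j ≤ Fi i j)
    (J : ℕ) (hJ : ∀ j, J ≤ j → Fi 0 j = ⊥) {g₁ g₂ : ℕ} (h12 : g₁ < g₂)
    {T₀ : E →ₗ[F] E} (hd : ∀ x, T₀ (d x) = d (T₀ x)) (ht : ∀ x, T₀ (τ x) = τ (T₀ x))
    (hn : ∀ x, T₀ (ν x) = ν (T₀ x)) (hT₀ : ∀ i, PSt T₀ (Fi i)) {u k : ℕ} (hk : (k : F) ≠ 0)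
    (hT : ∀ x, (T₀ ^ (u * k)) x = x) (a i₀ b : ℕ) (ha : a ≤ i₀) (hb : i₀ < b)
    (Gl Gu : ℕ → ℕ → Submodule F E) (hGl : ∀ m, Sub d τ ν (Gl m)) (hGu : ∀ m, Sub d τ ν (Gu m))
    (hGlT : ∀ m, PSt T₀ (Gl m)) (hGuT : ∀ m, PSt T₀ (Gu m))
    (hGlm : ∀ m j, Gl m j ≤ Gl (m + 1) j) (hGum : ∀ m j, Gu m j ≤ Gu (m + 1) j)
    (hGlV : ∀ m j, Gl m j ≤ Fi 0 j) (hGuV : ∀ m j, Gu m j ≤ Fi 0 j)
    (hGl0 : Gl 0 = Fi i₀) (hGlr : Gl (g₂ - g₁) = Fi a) (hGu0 : Gu 0 = Fi b)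
    (hGur : Gu (g₂ - g₁) = Fi (i₀ + 1))
    (hsl : ∀ m < g₂ - g₁, ∀ j, ∀ x ∈ Gl m j, d x = 0 → ∃ y ∈ pr (Gl (m + 1)) j, x - T₀ x = d y)
    (hsu : ∀ m < g₂ - g₁, ∀ j, ∀ x ∈ Gu m j, d x = 0 → ∃ y ∈ pr (Gu (m + 1)) j, x - T₀ x = d y)
    (hband : ∀ i, a ≤ i → i < b → i ≠ i₀ →
      (∀ j, g₁ ≤ j → j ≤ g₂ → HK d (Fi i) (Fi (i + 1)) j 0) ∨
      ((∀ j, (j ≤ g₁ ∨ g₂ ≤ j) → HK d (Fi i) (Fi (i + 1)) j 0) ∧
        ∀ k, TK d τ ν k (Fi i) (Fi (i + 1)) 0))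
    (hi₀ : ∀ j, (j ≤ g₁ ∨ g₂ ≤ j) → HK d (Fi i₀) (Fi (i₀ + 1)) j 0) (m : ℕ) :
    TK d τ ν m (PS (Pk (T₀ ^ u) k) (Fi i₀)) (PS (Pk (T₀ ^ u) k) (Fi (i₀ + 1))) 0 := by
  have hP := PC_Pk hd ht hn u k hk hT
  have hPS : ∀ i, PSt (Pk (T₀ ^ u) k) (Fi i) := fun i => PSt_Pk (hT₀ i) u k
  have hsl' : ∀ G G' : ℕ → Submodule F E, PSt T₀ G → PSt T₀ G' →
      (∀ j, ∀ x ∈ G j, d x = 0 → ∃ y ∈ pr G' j, x - T₀ x = d y) →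
      Pool.Agent.H25.FU.Slip d (PS (Pk (T₀ ^ u) k) G) (PS (Pk (T₀ ^ u) k) G') g₁ g₂ := by
    intro G G' hG hG' hab
    refine Slip_PS hk hP (PSt_Pk hG' u k) g₁ g₂ fun j x hx hdx i => ?_
    rw [← pow_mul]
    exact slip_pow hd hG (hab j) (u * i) x hx hdx
  have hsubP : ∀ i, Sub d τ ν (PS (Pk (T₀ ^ u) k) (Fi i)) := fun i => PS_sub hP (hsub i)
  have hmonoP : ∀ i j, PS (Pk (T₀ ^ u) k) (Fi (i + 1)) j ≤ PS (Pk (T₀ ^ u) k) (Fi i) j :=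
    fun i j => PS_mono _ (hmono i j)
  have hJP : ∀ j, J ≤ j → PS (Pk (T₀ ^ u) k) (Fi 0) j = ⊥ := by
    intro j hj
    rw [eq_bot_iff, ← hJ j hj]
    exact PS_le _ _ j
  have hbandP : ∀ i, a ≤ i → i < b → i ≠ i₀ →
      (∀ j, g₁ ≤ j → j ≤ g₂ →
        HK d (PS (Pk (T₀ ^ u) k) (Fi i)) (PS (Pk (T₀ ^ u) k) (Fi (i + 1))) j 0) ∨
      ((∀ j, (j ≤ g₁ ∨ g₂ ≤ j) →
        HK d (PS (Pk (T₀ ^ u) k) (Fi i)) (PS (Pk (T₀ ^ u) k) (Fi (i + 1))) j 0) ∧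
        ∀ k', TK d τ ν k' (PS (Pk (T₀ ^ u) k) (Fi i)) (PS (Pk (T₀ ^ u) k) (Fi (i + 1))) 0) := by
    intro i h1 h2 h3
    rcases hband i h1 h2 h3 with h4 | ⟨h4, h5⟩
    · exact Or.inl fun j e1 e2 => HK_PS hP (hPS _) (hPS _) (h4 j e1 e2)
    · exact Or.inr ⟨fun j e1 => HK_PS hP (hPS _) (hPS _) (h4 j e1),
        fun k' => TK_PS hP (hPS _) (hPS _) (h5 k')⟩
  -- the two levels
  have hdA : ∀ k', TK d τ ν k' (trf d (PS (Pk (T₀ ^ u) k) (Fi 0)) g₁ g₂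
      (PS (Pk (T₀ ^ u) k) (Fi i₀))) (trun d (PS (Pk (T₀ ^ u) k) (Fi 0)) g₁) 0 := by
    intro k'
    have h1 := slip_TK h (hsubP 0) (fun m => PS (Pk (T₀ ^ u) k) (Gl m))
      (fun m => PS_sub hP (hGl m)) (fun m j => PS_mono _ (hGlV m j))
      (fun m j => PS_mono _ (hGlm m j)) h12
      (fun m hm => hsl' _ _ (hGlT m) (hGlT (m + 1)) (hsl m hm))
      (by
        intro k''
        have h2 := chain_TK h (fun i => PS (Pk (T₀ ^ u) k) (Fi i)) hsubP hmonoP J hJP h12 a i₀ ha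
          (fun i h3 h4 => hbandP i h3 (by omega) (by omega)) k''
        simp only [hGlr, hGl0]
        exact h2) k'
    simp only [hGl0] at h1
    exact h1
  have hdB : ∀ k', TK d τ ν k' (trf d (PS (Pk (T₀ ^ u) k) (Fi 0)) g₁ g₂
      (PS (Pk (T₀ ^ u) k) (Fi b))) (trun d (PS (Pk (T₀ ^ u) k) (Fi 0)) g₁) 0 := by
    intro k'
    have h1 := slip_TK h (hsubP 0) (fun m => PS (Pk (T₀ ^ u) k) (Gu m))
      (fun m => PS_sub hP (hGu m)) (fun m j => PS_mono _ (hGuV m j))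
      (fun m j => PS_mono _ (hGum m j)) h12
      (fun m hm => hsl' _ _ (hGuT m) (hGuT (m + 1)) (hsu m hm))
      (by
        intro k''
        have h2 := chain_TK h (fun i => PS (Pk (T₀ ^ u) k) (Fi i)) hsubP hmonoP J hJP h12
          (i₀ + 1) b hb (fun i h3 h4 => hbandP i (by omega) h4 (by omega)) k''
        simp only [hGur, hGu0]
        exact h2) k'
    simp only [hGu0] at h1
    exact h1
  exact thin_band_TK h (fun i => PS (Pk (T₀ ^ u) k) (Fi i)) hsubP hmonoP J hJP h12 i₀ b i₀ le_rfl hb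
    hdA hdB (fun i h1 h2 h3 => hbandP i (by omega) h2 h3)
    (fun j hj => HK_PS hP (hPS _) (hPS _) (hi₀ j hj)) m

end Pool.Agent.H75.FU
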