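import Pool.Agent.H75.TH.Core

/-!
# Project FULL: the shift by one period `N` at the levels `K = k N` and `p K`
-/

set_option autoImplicit false

namespace Pool.Agent.H75.FU

open Filter Topology QuadraticForm
open Pool.Agent.H47.ST
open Pool.Agent.H47.QG (hess)
open Pool.Agent.H45.AC (Adm ClI SepI Rgd exists_Rgd shG Adm_pow_apply Adm_apply shG_pow shG_eq
  Adm_qK Adm_QK)
open Pool.Agent.H75.TH

variable {n p k N : ℕ}

theorem OmS_red [NeZero N] [NeZero (k * N)] [NeZero (p * (k * N))] {u : ℕ} (hu : u % k = 1 % k)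
    (a : Iz n (p * (k * N))) :
    shs n p (k * N) ((shG n (p * (k * N)) N ^ u) a) =
      shG n (k * N) N (shs n p (k * N) a) := by
  obtain ⟨j, b⟩ := a
  rw [Adm_pow_apply]
  refine Prod.ext ?_ rfl
  change Fin.ofNat (k * N) ((j + Fin.ofNat (p * (k * N)) (u * N) : Fin (p * (k * N))) : ℕ) =
    Fin.ofNat (k * N) (j : ℕ) + Fin.ofNat (k * N) N
  rw [ShK_red_add, ShK_red]
  congr 1
  refine ShK_ofNat_congr ?_
  have h1 : (u * N) % (k * N) = (u % k) * N := Nat.mul_mod_mul_right _ _ _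
  have h2 : (1 * N) % (k * N) = (1 % k) * N := Nat.mul_mod_mul_right _ _ _
  rw [one_mul] at h2
  rw [h1, h2, hu]

theorem OmS_pow [NeZero (p * (k * N))] {u : ℕ} (hu : p ∣ u) :
    shG n (p * (k * N)) N ^ (u * k) = 1 := by
  obtain ⟨c, rfl⟩ := hu
  ext1 a
  obtain ⟨j, b⟩ := a
  rw [Adm_pow_apply, Equiv.Perm.one_apply]
  have h : Fin.ofNat (p * (k * N)) (p * c * k * N) = 0 := by
    rw [← ShK_ofNat_self (p * (k * N))]
    refine ShK_ofNat_congr ?_
    rw [Nat.mod_self, show p * c * k * N = c * (p * (k * N)) by ring, Nat.mul_mod_left]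
  rw [h, add_zero]

theorem OmS_pow' [NeZero (k * N)] : shG n (k * N) N ^ k = 1 := by
  ext1 a
  obtain ⟨j, b⟩ := a
  rw [Adm_pow_apply, Equiv.Perm.one_apply, ShK_ofNat_self, add_zero]

theorem OmS_shp [NeZero (p * (k * N))] :
    shp n p (k * N) = shG n (p * (k * N)) N ^ k := by
  rw [← shG_pow, shG_eq]

theorem OmS_comm [NeZero (p * (k * N))] :
    shG n (p * (k * N)) N * shp n p (k * N) = shp n p (k * N) * shG n (p * (k * N)) N := by
  rw [OmS_shp, ← pow_succ, ← pow_succ']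

/-- the exponent -/
theorem OmS_exp (hpk : Nat.Coprime k p) : ∃ u : ℕ, u % k = 1 % k ∧ p ∣ u := by
  obtain ⟨u, h1, h2⟩ := Nat.chineseRemainder hpk 1 0
  exact ⟨u, h1, (Nat.modEq_zero_iff_dvd).1 h2⟩

theorem OmS_fold [NeZero N] [NeZero (k * N)] [NeZero (p * (k * N))] (y : Iz n (k * N) → ℝ) :
    (y ∘ shG n (k * N) N) ∘ shs n p (k * N) =
      (y ∘ shs n p (k * N)) ∘ shG n (p * (k * N)) N := by
  funext a
  have h := OmS_red (n := n) (p := p) (k := k) (N := N) (u := 1) rfl a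
  rw [pow_one] at h
  change y (shG n (k * N) N (shs n p (k * N) a)) = y (shs n p (k * N) (shG n (p * (k * N)) N a))
  rw [h]

/-- no fixed points modulo the lattice -/
theorem OmS_free [NeZero N] [NeZero (k * N)] [NeZero (p * (k * N))] (hk : 0 < k)
    {z : Iz n (k * N) → ℝ}
    (hz : (z ∘ shs n p (k * N)) ∘ shG n (p * (k * N)) N ≠ z ∘ shs n p (k * N)) :
    ∀ l ∈ Lc n (k * N), z ∘ shG n (k * N) N ≠ z + rl l := by
  intro l hl h
  have hlγ : (rl l) ∘ shG n (k * N) N = rl l := by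
    obtain ⟨c, hc⟩ := hl
    funext a
    obtain ⟨j, b⟩ := a
    change ((l (shG n (k * N) N (j, b)) : ℤ) : ℝ) = ((l (j, b) : ℤ) : ℝ)
    rw [Adm_apply, hc, hc]
  have hi : ∀ i : ℕ, z ∘ (shG n (k * N) N ^ i) = z + (i : ℝ) • rl l := by
    intro i
    induction i with
    | zero =>
      funext a
      simp
    | succ i ih =>
      have h1 : z ∘ (shG n (k * N) N ^ (i + 1)) =
          (z ∘ (shG n (k * N) N ^ i)) ∘ shG n (k * N) N := by
        funext a
        rw [pow_succ]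
        rfl
      rw [h1, ih]
      have h2 : (z + (i : ℝ) • rl l) ∘ shG n (k * N) N =
          z ∘ shG n (k * N) N + (i : ℝ) • ((rl l) ∘ shG n (k * N) N) := rfl
      rw [h2, h, hlγ]
      funext a
      simp only [Pi.add_apply, Pi.smul_apply, smul_eq_mul]
      push_cast
      ring
  have h3 := hi k
  rw [OmS_pow'] at h3
  have h4 : rl l = 0 := by
    funext a
    have h5 := congrFun h3 a
    simp only [Function.comp_apply, Equiv.Perm.one_apply, Pi.add_apply, Pi.smul_apply,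
      smul_eq_mul] at h5
    have h6 : (k : ℝ) * rl l a = 0 := by linarith
    have hk' : (k : ℝ) ≠ 0 := by exact_mod_cast hk.ne'
    exact (mul_eq_zero.1 h6).resolve_left hk'
  rw [h4, add_zero] at h
  refine hz ?_
  rw [← OmS_fold, h]

/-- the folded band with its critical points -/
theorem OmS_band {n p K : ℕ} [NeZero K] [NeZero (p * K)] [Fact p.Prime] {C : ℝ} {G₁ G₂ : ℕ}
    {f : (Iz n (p * K) → ℝ) → ℝ} {W : Finset (Iz n (p * K) → ℝ)}
    (h : Adm n (p * K) (shp n p K) C G₁ G₂ f W) {R : ℝ} (hR' : Rgd n K p (p * C) R) {b₁ b₂ : ℝ}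
    (hb : b₁ < b₂) (h1 : ∀ z ∈ W, f z ≠ b₁) (h2 : ∀ z ∈ W, f z ≠ b₂) :
    ∃ W' : Finset (Iz n K → ℝ), (∀ y ∈ W', y ∘ shs n p K ∈ W ∧ b₁ < f (y ∘ shs n p K) ∧
      f (y ∘ shs n p K) < b₂) ∧
      Band (Lc n K) (fun t => p * qK n K t) (fun t => p * QK n K t)
        (fun y : Iz n K → ℝ => f (y ∘ shs n p K)) R R b₁ b₂ W' := by
  classical
  have hp : p.Prime := Fact.out
  have hp0 : (0 : ℝ) < p := by exact_mod_cast hp.pos
  have hfd : Differentiable ℝ f := h.smooth.differentiable (by norm_num)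
  have hfb : ContDiff ℝ 2 (fun y : Iz n K → ℝ => f (y ∘ shs n p K)) :=
    fold_smooth (shs n p K) 2 f h.smooth
  obtain ⟨hB1', hB2'⟩ := hR' (fun y : Iz n K → ℝ => f (y ∘ shs n p K))
    (hfb.differentiable (by norm_num)) (EqM_partial hfd h.grad)
  have hcf := crit_of_fold (shp n p K) hp.pos (shp_pow n p K) (shs n p K)
    (fun v => shp_fix v) f hfd h.inv
  have hsurj : Function.Surjective (shs n p K) := shs_surj hp.pos
  -- the section
  obtain ⟨g, hg⟩ := hsurj.hasRightInverse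
  have hsec : ∀ y : Iz n K → ℝ, (y ∘ shs n p K) ∘ g = y := by
    intro y
    funext a
    change y (shs n p K (g a)) = y a
    rw [hg a]
  have hmem : ∀ y : Iz n K → ℝ, y ∈ (W.filter fun z => z ∘ shp n p K = z ∧ b₁ < f z ∧
      f z < b₂).image (fun z => z ∘ g) ↔
      y ∘ shs n p K ∈ W ∧ b₁ < f (y ∘ shs n p K) ∧ f (y ∘ shs n p K) < b₂ := by
    intro y
    rw [Finset.mem_image]
    constructor
    · rintro ⟨z, hz, rfl⟩
      obtain ⟨hz1, hz2, hz3, hz4⟩ := Finset.mem_filter.1 hz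
      obtain ⟨y', rfl⟩ := (shp_fix z).1 hz2
      rw [hsec]
      exact ⟨hz1, hz3, hz4⟩
    · rintro ⟨h3, h4, h5⟩
      refine ⟨y ∘ shs n p K, Finset.mem_filter.2 ⟨h3, (shp_fix _).2 ⟨y, rfl⟩, h4, h5⟩, hsec y⟩
  refine ⟨(W.filter fun z => z ∘ shp n p K = z ∧ b₁ < f z ∧ f z < b₂).image (fun z => z ∘ g),
    fun y hy => (hmem y).1 hy, dom_Dm n K hp0 R R, hfb, EqM_per h.per, hB1', hb, ?_, ?_, ?_⟩
  · intro y hy
    obtain ⟨h3, h4, h5⟩ := (hmem y).1 hy
    have h6 : fderiv ℝ f (y ∘ shs n p K) = 0 := (h.crit _).2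
      ⟨_, h3, 0, (Lc n (p * K)).zero_mem, by rw [Win_rl_zero, add_zero]⟩
    have h7 : fderiv ℝ (fun y : Iz n K → ℝ => f (y ∘ shs n p K)) y = 0 := (hcf y).2 h6
    exact ⟨h7, (hB2' y h7).1, (hB2' y h7).2, h4, h5⟩
  · intro y hy y' hy' l hl e
    obtain ⟨h3, -, -⟩ := (hmem y).1 hy
    obtain ⟨h3', -, -⟩ := (hmem y').1 hy'
    obtain ⟨c, hc⟩ := hl
    have h1' : (l ∘ shs n p K) ∈ Lc n (p * K) := ⟨c, fun j b => hc _ _⟩
    have h4 := h.inj _ h3 _ h3' _ h1' (by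
      rw [e]
      rfl)
    have h5 := congrArg (fun z : Iz n (p * K) → ℝ => z ∘ g) h4
    simp only [hsec] at h5
    exact h5
  · intro y _ _ h3 h4 h5
    obtain ⟨z, hz, l, hl, hy⟩ := (h.crit _).1 ((hcf y).1 h5)
    have hy2 : (y ∘ shs n p K) ∘ shp n p K = y ∘ shs n p K :=
      (shp_fix (y ∘ shs n p K)).2 ⟨y, rfl⟩
    have hzi : z ∘ shp n p K = z := by
      have hz2 : z = y ∘ shs n p K - rl l := by rw [hy, add_sub_cancel_right]
      have e : (y ∘ shs n p K - rl l) ∘ shp n p K =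
          (y ∘ shs n p K) ∘ shp n p K - rl l ∘ shp n p K := rfl
      rw [hz2, e, hy2, Core_lat hl]
    obtain ⟨y₀, rfl⟩ := (shp_fix z).1 hzi
    have hv : f (y ∘ shs n p K) = f (y₀ ∘ shs n p K) := by rw [hy, h.per l hl]
    rw [hv] at h3 h4
    refine ⟨y₀, (hmem y₀).2 ⟨hz, lt_of_le_of_ne h3 (h1 _ hz).symm,
      lt_of_le_of_ne h4 (h2 _ hz)⟩, ?_⟩
    obtain ⟨c, hc⟩ := hl
    refine ⟨fun a => c a.2, ⟨c, fun _ _ => rfl⟩, ?_⟩
    have h6 := congrArg (fun z : Iz n (p * K) → ℝ => z ∘ g) hy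
    simp only [hsec] at h6
    rw [h6]
    funext a
    simp only [Function.comp_apply, Pi.add_apply, rl]
    rw [hg a, hc (g a).1 (g a).2]
    congr 3
    have h7 := hg a
    have h8 : (shs n p K (g a)).2 = (g a).2 := rfl
    rw [← h8, h7]

end Pool.Agent.H75.FU
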