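import Pool.Agent.H75.FU.OmB
import Pool.Agent.H75.FU.OmS
import Pool.Agent.H75.FU.PcoI
import Pool.Agent.H75.FU.Defs
import Pool.Agent.H15.FU.Spl

/-!
# Project FULL: values without fixed points of the base map are dead
-/

set_option autoImplicit false

namespace Pool.Agent.H75.FU

open Filter Topology QuadraticForm
open Pool.Agent.H47.ST
open Pool.Agent.H47.QG (hess)
open Pool.Agent.H45.AC (Adm ClI SepI Rgd exists_Rgd shG Adm_ps Adm_qK Adm_QK Per_shG)
open Pool.Agent.H25.FU (PSt)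
open Pool.Agent.H75.TH

/-- the shift invariance of the level sets -/
theorem OmC_PInv {n K N : ℕ} [NeZero K] {f : (Iz n K → ℝ) → ℝ}
    (hf : ∀ y, f (y ∘ shG n K N) = f y) (R a b : ℝ) (m : ℕ) :
    PInv (shG n K N) (Lv (qK n K) (QK n K) f R a b m) := by
  intro v
  simp only [Lv, Set.mem_ofPred_eq]
  rw [Adm_ps, Adm_qK, Adm_QK, hf]

/-- the index of a band is determined by a value -/
theorem OmC_index {α : ℕ → ℝ} (hα : StrictMono α) {i i' : ℕ} {x : ℝ} (h1 : α i < x)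
    (h2 : x < α (i' + 1)) : i ≤ i' := by
  have h3 : α i < α (i' + 1) := h1.trans h2
  have h4 := hα.lt_iff_lt.1 h3
  omega

/-- permutation operators of commuting permutations commute -/
theorem OmC_comm {ι : Type*} {F : Type*} [Field F] {γ π : Equiv.Perm ι} (h : γ * π = π * γ)
    (c : Co ι F) : Tp γ (Tp π c) = Tp π (Tp γ c) := by
  funext σ
  rw [Free_Tp, Free_Tp, Free_Tp, Free_Tp, ← Free_mul, ← Free_mul, h]

theorem OmC_comm_pow {ι : Type*} {F : Type*} [Field F] {γ π : Equiv.Perm ι}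
    (h : γ * π = π * γ) (i : ℕ) (c : Co ι F) :
    Tp γ (((Tp π) ^ i) c) = ((Tp π) ^ i) (Tp γ c) := by
  induction i with
  | zero => rfl
  | succ i ih =>
    rw [pow_succ', Module.End.mul_apply, Module.End.mul_apply, OmC_comm h, ih]

/-- **Core of Theorem Omega.** A value of the level `p K` which is isolated among the values of
class I of the points of period `K`, and which is not the value of a point of period `N`, has no
cohomology on the folded grid. -/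
theorem OM_core {n p k N : ℕ} [NeZero N] [NeZero (k * N)] [NeZero (p * (k * N))] [Fact p.Prime]
    (hk : 0 < k) (hpk : ¬ p ∣ k) {C C₀ : ℝ} {G₁ G₂ : ℕ} (h12 : G₁ < G₂)
    {f : (Iz n (p * (k * N)) → ℝ) → ℝ} {W : Finset (Iz n (p * (k * N)) → ℝ)}
    (h : Adm n (p * (k * N)) (shp n p (k * N)) C G₁ G₂ f W) (hsep : SepI G₁ G₂ f W)
    (hγ : ∀ y, f (y ∘ shG n (p * (k * N)) N) = f y) (hC₀ : 0 ≤ C₀)
    (hslip : Slip (ZMod p) n (p * (k * N)) (shG n (p * (k * N)) N) f C₀) (v : ℝ)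
    (hv : ∃ z ∈ W, z ∘ shp n p (k * N) = z ∧ ClI G₁ G₂ f z ∧ f z = v)
    (hgap : ∀ z ∈ W, z ∘ shp n p (k * N) = z → ClI G₁ G₂ f z → f z ≠ v →
      ((G₂ : ℝ) - G₁) * (C₀ + 2) + 6 < |f z - v|)
    (hnf : ∀ z ∈ W, f z = v → z ∘ shG n (p * (k * N)) N ≠ z) :
    ∃ R₀ : ℝ, ∀ R ≥ R₀, ∃ b₁ b₂ : ℝ, b₁ < v ∧ v < b₂ ∧
      (∀ y : Iz n (k * N) → ℝ, fderiv ℝ f (y ∘ shs n p (k * N)) = 0 →
        b₁ ≤ f (y ∘ shs n p (k * N)) → f (y ∘ shs n p (k * N)) ≤ b₂ →
        f (y ∘ shs n p (k * N)) = v) ∧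
      ∀ j, ∀ᶠ M : ℕ in atTop, HR (ZMod p) (lam (Lc n (k * N)) (2 ^ M))
        (Lv (fun t => p * qK n (k * N) t) (fun t => p * QK n (k * N) t)
          (fun y : Iz n (k * N) → ℝ => f (y ∘ shs n p (k * N))) R R b₂ (2 ^ M))
        (Lv (fun t => p * qK n (k * N) t) (fun t => p * QK n (k * N) t)
          (fun y : Iz n (k * N) → ℝ => f (y ∘ shs n p (k * N))) R R b₁ (2 ^ M)) j 0 := by
  classical
  have hp : p.Prime := Fact.out
  have hp0 : (0 : ℝ) < p := by exact_mod_cast hp.pos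
  have hf := h.smooth
  have hfp := h.per
  have hfd : Differentiable ℝ f := hf.differentiable (by norm_num)
  obtain ⟨r, hr⟩ : ∃ r : ℕ, r = G₂ - G₁ := ⟨_, rfl⟩
  have hr0 : 0 < r := by omega
  have hrr : ((G₂ : ℝ) - G₁) = r := by
    rw [hr, Nat.cast_sub h12.le]
  rw [hrr] at hgap
  have hrR : (1 : ℝ) ≤ r := by exact_mod_cast hr0
  have hrC : 0 ≤ (r : ℝ) * C₀ := mul_nonneg (by linarith) hC₀
  obtain ⟨x₀, hx₀⟩ : ∃ x₀ : ℝ, x₀ = r * C₀ + 3 := ⟨_, rfl⟩
  obtain ⟨D, hD0⟩ : ∃ D : ℝ, D = r * (C₀ + 2) + 6 := ⟨_, rfl⟩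
  rw [← hD0] at hgap
  have hDx : x₀ + 3 ≤ D := by rw [hx₀, hD0]; nlinarith
  -- the domain
  obtain ⟨R₁, -, hR1⟩ := exists_Rgd n (p * (k * N)) one_pos C
  obtain ⟨R₂, -, hR2⟩ := exists_Rgd n (k * N) hp0 (p * C)
  obtain ⟨R₃, hR3⟩ := hslip (v - D)
  refine ⟨max (max R₁ R₂) R₃, fun R hR₀ => ?_⟩
  have hRa : R₁ ≤ R := ((le_max_left _ _).trans (le_max_left _ _)).trans hR₀
  have hRb : R₂ ≤ R := ((le_max_right _ _).trans (le_max_left _ _)).trans hR₀
  have hRc : R₃ ≤ R := (le_max_right _ _).trans hR₀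
  have hR := hR1 R hRa
  have hR' := hR2 R hRb
  have hSl := hR3 R hRc
  have hD : Dm (Lc n (p * (k * N))) (qK n (p * (k * N))) (QK n (p * (k * N))) R R := by
    have h := dom_Dm n (p * (k * N)) one_pos R R
    simp only [one_mul] at h
    exact h
  have hB := hR f hfd (fun y b => by
    rw [one_mul]
    exact h.grad y b)
  simp only [one_mul] at hB
  obtain ⟨hB1, hB2⟩ := hB
  have hWc : ∀ z ∈ W, fderiv ℝ f z = 0 := fun z hz =>
    (h.crit z).2 ⟨z, hz, 0, (Lc n (p * (k * N))).zero_mem, by rw [Win_rl_zero, add_zero]⟩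
  -- the levels
  obtain ⟨α₀, hα₀⟩ := Lv_low hD hf.continuous hfp
  obtain ⟨β₀, hβ₀⟩ := Lv_high hD hf.continuous hfp
  obtain ⟨M₀, α, hmono, hα0', hαM', hαV, hαs⟩ := exists_levels
    (W.image f ∪ {v - 1, v + 1, v - x₀, v + x₀}) (min α₀ (v - x₀ - 1)) (max β₀ (v + x₀ + 1))
  have hα0 : α 0 ≤ α₀ := hα0'.trans (min_le_left _ _)
  have hα0x : α 0 < v - x₀ := by
    have := hα0'.trans (min_le_right _ _)
    linarith
  have hαM : β₀ ≤ α M₀ := (le_max_left _ _).trans hαM'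
  have hαMx : v + x₀ < α M₀ := by
    have := (le_max_right _ _).trans hαM'
    linarith
  have hV0 : ∀ z ∈ W, f z ∈ W.image f ∪ {v - 1, v + 1, v - x₀, v + x₀} := fun z hz =>
    Finset.mem_union_left _ (Finset.mem_image_of_mem f hz)
  obtain ⟨z₀, hz₀, hz₀T, hz₀I, hz₀v⟩ := hv
  have hVv : v ∈ W.image f ∪ {v - 1, v + 1, v - x₀, v + x₀} := by
    have := hV0 z₀ hz₀
    rwa [hz₀v] at this
  have hV1 : v - 1 ∈ W.image f ∪ {v - 1, v + 1, v - x₀, v + x₀} :=
    Finset.mem_union_right _ (by simp)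
  have hV2 : v + 1 ∈ W.image f ∪ {v - 1, v + 1, v - x₀, v + x₀} :=
    Finset.mem_union_right _ (by simp)
  have hV3 : v - x₀ ∈ W.image f ∪ {v - 1, v + 1, v - x₀, v + x₀} :=
    Finset.mem_union_right _ (by simp)
  have hV4 : v + x₀ ∈ W.image f ∪ {v - 1, v + 1, v - x₀, v + x₀} :=
    Finset.mem_union_right _ (by simp)
  have hne : ∀ x ∈ W.image f ∪ {v - 1, v + 1, v - x₀, v + x₀}, ∀ i, α i ≠ x := fun x hx i e =>
    hαV i (by rw [e]; exact hx)
  have hαf : ∀ i, ∀ z ∈ W, f z ≠ α i := fun i z hz e => hne _ (hV0 z hz) i e.symm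
  have hsame : ∀ i, ∀ z ∈ W, ∀ z' ∈ W, α i < f z → f z < α (i + 1) → α i < f z' →
      f z' < α (i + 1) → f z = f z' := fun i z hz z' hz' e1 e2 e3 e4 =>
    hαs i _ (hV0 z hz) _ (hV0 z' hz') e1 e2 e3 e4
  obtain ⟨i₀, hi₀M, hi₀1, hi₀2⟩ := Core_find α v (hne v hVv) M₀ (by linarith) (by linarith)
  obtain ⟨a, haM, ha1, ha2⟩ := Core_find α (v - x₀) (hne _ hV3) M₀ hα0x (by linarith)
  obtain ⟨b', hbM, hb1, hb2⟩ := Core_find α (v + x₀) (hne _ hV4) M₀ (by linarith) hαMx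
  have hi₀lo : v - 1 < α i₀ := by
    by_contra hcon
    have h1 : α i₀ < v - 1 := lt_of_le_of_ne (not_lt.1 hcon) (hne _ hV1 i₀)
    have := hαs i₀ _ hV1 _ hVv h1 (by linarith) hi₀1 hi₀2
    linarith
  have hi₀hi : α (i₀ + 1) < v + 1 := by
    by_contra hcon
    have h1 : v + 1 < α (i₀ + 1) := lt_of_le_of_ne (not_lt.1 hcon) (hne _ hV2 _).symm
    have := hαs i₀ _ hV2 _ hVv (by linarith) h1 hi₀1 hi₀2
    linarith
  have hai : a ≤ i₀ := OmC_index hmono ha1 (by linarith)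
  have hib : i₀ < b' + 1 := by
    have := OmC_index hmono (i := i₀) (i' := b') (x := v) hi₀1 (by linarith)
    omega
  -- the bands between `a` and `b' + 1` except `i₀`
  have hclean : ∀ i, a ≤ i → i < b' + 1 → i ≠ i₀ → ∀ z ∈ W, z ∘ shp n p (k * N) = z →
      ClI G₁ G₂ f z → α i < f z → f z < α (i + 1) → False := by
    intro i h1 h2 h3 z hz hzT hzI e1 e2
    have e3 : f z ≠ v := by
      intro e
      rw [e] at e1 e2
      have e4 := OmC_index hmono e1 hi₀2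
      have e5 := OmC_index hmono hi₀1 e2
      omega
    have e4 := hgap z hz hzT hzI e3
    rcases lt_abs.1 e4 with e5 | e5
    · -- above
      have e6 : b' ≤ i := OmC_index hmono hb1 (by linarith)
      have e7 : i = b' := by omega
      subst e7
      have := hαs i _ hV4 _ (hV0 z hz) hb1 hb2 e1 e2
      linarith
    · have e6 : i ≤ a := OmC_index hmono e1 (by linarith)
      have e7 : i = a := by omega
      subst e7
      have := hαs i _ hV3 _ (hV0 z hz) ha1 ha2 e1 e2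
      linarith
  -- the folded band
  obtain ⟨W', hW'1, hW'2⟩ := OmS_band (K := k * N) h hR' (hi₀1.trans hi₀2)
    (hαf i₀) (hαf (i₀ + 1))
  have hW'v : ∀ y ∈ W', f (y ∘ shs n p (k * N)) = v := by
    intro y hy
    obtain ⟨e1, e2, e3⟩ := hW'1 y hy
    rw [← hz₀v] at hi₀1 hi₀2 ⊢
    exact hsame i₀ _ e1 z₀ hz₀ e2 e3 hi₀1 hi₀2
  have hfoldinv : ∀ y : Iz n (k * N) → ℝ, f ((y ∘ shG n (k * N) N) ∘ shs n p (k * N)) =
      f (y ∘ shs n p (k * N)) := by
    intro y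
    rw [OmS_fold, hγ]
  have hspl := Pool.Agent.H15.FU.split_dead (ZMod p) hW'2 hW'v (shG n (k * N) N)
    (by
      rintro l ⟨c, hc⟩
      funext a
      obtain ⟨j, b⟩ := a
      change l (shG n (k * N) N (j, b)) = l (j, b)
      rw [Pool.Agent.H45.AC.Adm_apply, hc, hc])
    (fun y => by rw [Adm_qK]) (fun y => by rw [Adm_QK]) hfoldinv
    (fun y hy => OmS_free (p := p) hk (hnf _ (hW'1 y hy).1 (hW'v y hy)))
  -- the exponent
  obtain ⟨u, hu1, hu2⟩ := OmS_exp (k := k) (p := p)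
    ((Nat.coprime_comm.1 ((Nat.Prime.coprime_iff_not_dvd hp).2 hpk)))
  have hkF : (k : ZMod p) ≠ 0 := fun e => hpk ((ZMod.natCast_eq_zero_iff k p).1 e)
  have hγu : shG n (p * (k * N)) N ^ (u * k) = 1 := OmS_pow hu2
  have hγπ := OmS_comm (n := n) (p := p) (k := k) (N := N)
  refine ⟨α i₀, α (i₀ + 1), hi₀1, hi₀2, ?_, fun j => ?_⟩
  · intro y e1 e2 e3
    obtain ⟨z, hz, l, hl, hy⟩ := (h.crit _).1 e1
    have e4 : f (y ∘ shs n p (k * N)) = f z := by rw [hy, hfp l hl z]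
    rw [e4] at e2 e3 ⊢
    rw [← hz₀v] at hi₀1 hi₀2 ⊢
    exact hsame i₀ z hz z₀ hz₀ (lt_of_le_of_ne e2 (hαf i₀ z hz).symm)
      (lt_of_le_of_ne e3 (hαf (i₀ + 1) z hz)) hi₀1 hi₀2
  -- fine meshes
  have hev1 : ∀ᶠ M : ℕ in atTop, ∀ i ∈ Finset.range M₀, ∀ j,
      (∀ z ∈ W.filter fun z => α i < f z ∧ f z < α (i + 1),
        ¬ (sigNeg (hess f z) ≤ j ∧ j + sigPos (hess f z) ≤ Fintype.card (Iz n (p * (k * N))))) →
      HR (ZMod p) (lam (Lc n (p * (k * N))) (2 ^ M))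
        (Lv (qK n (p * (k * N))) (QK n (p * (k * N))) f R R (α (i + 1)) (2 ^ M))
        (Lv (qK n (p * (k * N))) (QK n (p * (k * N))) f R R (α i) (2 ^ M)) j 0 :=
    (Filter.eventually_all_finset _).2 fun i _ => window_out (ZMod p)
      (Core_band hR hf hfp h.grad h.crit h.inj (hmono (Nat.lt_succ_self i)) (hαf i) (hαf (i + 1)))
  have hev2 : ∀ᶠ M : ℕ in atTop, ∀ i ∈ Finset.range M₀,
      (∀ z ∈ W, z ∘ shp n p (k * N) = z → α i < f z → f z < α (i + 1) → False) →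
      ∀ j, HR (ZMod p) (lam (Lc n (k * N)) (2 ^ M))
        (fo (shs n p (k * N))
          (Lv (qK n (p * (k * N))) (QK n (p * (k * N))) f R R (α (i + 1)) (2 ^ M)))
        (fo (shs n p (k * N))
          (Lv (qK n (p * (k * N))) (QK n (p * (k * N))) f R R (α i) (2 ^ M))) j 0 := by
    refine (Filter.eventually_all_finset _).2 fun i _ => ?_
    by_cases hPi : ∀ z ∈ W, z ∘ shp n p (k * N) = z → α i < f z → f z < α (i + 1) → False
    · filter_upwards [window_out (ZMod p) (Core_fold h hR' (hmono (Nat.lt_succ_self i)) (hαf i)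
        (hαf (i + 1)) hPi)] with M hM _ j
      rw [EqM_fo_Lv, EqM_fo_Lv]
      exact hM j fun z hz => absurd hz (Finset.notMem_empty z)
    · exact Filter.Eventually.of_forall fun M h => absurd h hPi
  have hev3 : ∀ᶠ M : ℕ in atTop, ∀ m ∈ Finset.range r, ∀ j,
      ∀ c ∈ co (F := ZMod p) (lam (Lc n (p * (k * N))) (2 ^ M))
        (Xm (qK n (p * (k * N))) R (2 ^ M))
        (Lv (qK n (p * (k * N))) (QK n (p * (k * N))) f R R (α i₀ - m * C₀) (2 ^ M)) (j + 1),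
        dX (Xm (qK n (p * (k * N))) R (2 ^ M)) c = 0 →
        ∃ y ∈ co (F := ZMod p) (lam (Lc n (p * (k * N))) (2 ^ M))
          (Xm (qK n (p * (k * N))) R (2 ^ M))
          (Lv (qK n (p * (k * N))) (QK n (p * (k * N))) f R R (α i₀ - m * C₀ - C₀) (2 ^ M)) j,
          c - Tp (shG n (p * (k * N)) N) c = dX (Xm (qK n (p * (k * N))) R (2 ^ M)) y := by
    refine (Filter.eventually_all_finset _).2 fun m hm => hSl _ ?_
    have h1 : (m : ℝ) ≤ r := by exact_mod_cast (Finset.mem_range.1 hm).le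
    have h2 : (m : ℝ) * C₀ ≤ r * C₀ := mul_le_mul_of_nonneg_right h1 hC₀
    rw [ge_iff_le]
    linarith
  have hev4 : ∀ᶠ M : ℕ in atTop, ∀ m ∈ Finset.range r, ∀ j,
      ∀ c ∈ co (F := ZMod p) (lam (Lc n (p * (k * N))) (2 ^ M))
        (Xm (qK n (p * (k * N))) R (2 ^ M))
        (Lv (qK n (p * (k * N))) (QK n (p * (k * N))) f R R (α (b' + 1) - m * C₀) (2 ^ M))
          (j + 1),
        dX (Xm (qK n (p * (k * N))) R (2 ^ M)) c = 0 →
        ∃ y ∈ co (F := ZMod p) (lam (Lc n (p * (k * N))) (2 ^ M))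
          (Xm (qK n (p * (k * N))) R (2 ^ M))
          (Lv (qK n (p * (k * N))) (QK n (p * (k * N))) f R R (α (b' + 1) - m * C₀ - C₀)
            (2 ^ M)) j,
          c - Tp (shG n (p * (k * N)) N) c = dX (Xm (qK n (p * (k * N))) R (2 ^ M)) y := by
    refine (Filter.eventually_all_finset _).2 fun m hm => hSl _ ?_
    have h1 : (m : ℝ) ≤ r := by exact_mod_cast (Finset.mem_range.1 hm).le
    have h2 : (m : ℝ) * C₀ ≤ r * C₀ := mul_le_mul_of_nonneg_right h1 hC₀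
    rw [ge_iff_le]
    linarith
  filter_upwards [hev1, hev2, hev3, hev4, hspl, eventually_ge_atTop 1] with M hM1 hM2 hM3 hM4 hM5
    hM6
  have hm2 : 2 ≤ 2 ^ M := by
    calc 2 = 2 ^ 1 := rfl
      _ ≤ 2 ^ M := Nat.pow_le_pow_right (by norm_num) hM6
  have hm0 : 0 < 2 ^ M := by omega
  have hA0 : Lv (qK n (p * (k * N))) (QK n (p * (k * N))) f R R (α 0) (2 ^ M) =
      Am (qK n (p * (k * N))) (QK n (p * (k * N))) R R (2 ^ M) := (hα₀ (α 0) hα0).2 _
  have hAM : Lv (qK n (p * (k * N))) (QK n (p * (k * N))) f R R (α M₀) (2 ^ M) =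
      Xm (qK n (p * (k * N))) R (2 ^ M) := (hβ₀ (α M₀) hαM).2 _
  -- the filtered complex
  set X : Set (Iz n (p * (k * N)) → ℤ) := Xm (qK n (p * (k * N))) R (2 ^ M) with hXdef
  set A : ℝ → Set (Iz n (p * (k * N)) → ℤ) :=
    fun b => Lv (qK n (p * (k * N))) (QK n (p * (k * N))) f R R b (2 ^ M) with hAdef
  have hAmono : ∀ b b' : ℝ, b ≤ b' → A b ⊆ A b' := fun b b' hb => Lv_mono _ _ _ _ _ hb _
  have hAX : ∀ b, A b ⊆ X := fun b w hw => hw.1
  have hXL : Inv (lam (Lc n (p * (k * N))) (2 ^ M)) X := Xm_inv hD.qp R hm0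
  have hAL : ∀ b, Inv (lam (Lc n (p * (k * N))) (2 ^ M)) (A b) := fun b =>
    Lv_inv hD.qp hD.Qp hfp R R b hm0
  have hAπ : ∀ b, PInv (shp n p (k * N)) (A b) := fun b => EqM_PInv h.inv R R b (2 ^ M)
  have hXπ : PInv (shp n p (k * N)) X := by
    rw [← hAM]
    exact hAπ _
  have hAγ : ∀ b, PInv (shG n (p * (k * N)) N) (A b) := fun b => OmC_PInv hγ R R b (2 ^ M)
  have hXγ : PInv (shG n (p * (k * N)) N) X := by
    rw [← hAM]
    exact hAγ _
  have hcy := Cyc_K (n := n) (N := k * N) hp hm2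
  have hfo := Fold_K (n := n) (p := p) (N := k * N) (m := 2 ^ M)
  have hops := Cyc_ops hcy hXπ
  have hγL : ∀ l ∈ lam (Lc n (p * (k * N))) (2 ^ M), l ∘ shG n (p * (k * N)) N = l :=
    (Per_shG (n := n) (K := p * (k * N)) (N := N) (q := p * k) (mul_assoc p k N).symm hm2).fix
  set Fr : ℝ → ℕ → Submodule (ZMod p) (Co (Iz n (p * (k * N))) (ZMod p)) :=
    fun b => co (F := ZMod p) (lam (Lc n (p * (k * N))) (2 ^ M)) X (A b) with hFr
  have hsub : ∀ b, Sub (dX (F := ZMod p) X) (ta (ZMod p) (shp n p (k * N)))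
      (nu (ZMod p) (shp n p (k * N)) p) (Fr b) := fun b => Cyc_sub hcy hXπ (hAπ b) hXL
  have hFmono : ∀ b b' j, b ≤ b' → Fr b' j ≤ Fr b j := fun b b' j hb => co_anti (hAmono b b' hb) j
  have hFT : ∀ b, PSt (Tp (F := ZMod p) (shG n (p * (k * N)) N)) (Fr b) := fun b j x hx =>
    Free_T_mem hγL hXγ (hAγ b) hx
  have hrel : ∀ i j, HR (ZMod p) (lam (Lc n (p * (k * N))) (2 ^ M)) (A (α (i + 1)))
      (A (α i)) j 0 → HK (dX (F := ZMod p) X) (Fr (α i)) (Fr (α (i + 1))) (j + 1) 0 :=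
    fun i j hj => HR.rel hXL (hAL _) (hAmono _ _ (hmono (Nat.lt_succ_self i)).le) (hAX _) hj
  -- bands without values of class I
  have hout : ∀ i < M₀, (∀ z ∈ W, ClI G₁ G₂ f z → α i < f z → f z < α (i + 1) → False) →
      ∀ j, G₁ ≤ j → j ≤ G₂ → HK (dX (F := ZMod p) X) (Fr (α i)) (Fr (α (i + 1))) j 0 := by
    intro i hi hno j e1 e2
    cases j with
    | zero => exact Loc_HK_zero _ _
    | succ j =>
      refine hrel i j (hM1 i (Finset.mem_range.2 hi) j ?_)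
      intro z hz
      obtain ⟨hz1, hz2, hz3⟩ := Finset.mem_filter.1 hz
      have h5 : ¬ ClI G₁ G₂ f z := fun h => hno z hz1 h hz2 hz3
      have h6 := h.win z hz1 G₂ (Or.inr rfl)
      have h7 := h.win z hz1 G₁ (Or.inl rfl)
      unfold ClI at h5
      omega
  -- bands with values of class I
  have hall : ∀ i, ∀ z ∈ W, ClI G₁ G₂ f z → α i < f z → f z < α (i + 1) →
      ∀ z' ∈ W, α i < f z' → f z' < α (i + 1) → ClI G₁ G₂ f z' := by
    intro i z hz hzI e1 e2 z' hz' e3 e4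
    by_contra hcon
    exact hsep z hz z' hz' hzI hcon (hsame i z hz z' hz' e1 e2 e3 e4)
  have hinb : ∀ i < M₀, (∃ z ∈ W, ClI G₁ G₂ f z ∧ α i < f z ∧ f z < α (i + 1)) →
      ∀ j, (j ≤ G₁ ∨ G₂ ≤ j) → HK (dX (F := ZMod p) X) (Fr (α i)) (Fr (α (i + 1))) j 0 := by
    rintro i hi ⟨z₁, hz₁, e1, e2, e3⟩ j hj
    cases j with
    | zero => exact Loc_HK_zero _ _
    | succ j =>
      refine hrel i j (hM1 i (Finset.mem_range.2 hi) j ?_)
      intro z hz
      obtain ⟨hz1, hz2, hz3⟩ := Finset.mem_filter.1 hz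
      have h5 := hall i z₁ hz₁ e1 e2 e3 z hz1 hz2 hz3
      have h6 := h.win z hz1 G₂ (Or.inr rfl)
      unfold ClI at h5
      omega
  -- the levels of the slips
  obtain ⟨ll, hll⟩ : ∃ ll : ℕ → ℝ, ∀ m, ll m = if m < r then α i₀ - m * C₀ else α a :=
    ⟨_, fun _ => rfl⟩
  obtain ⟨lu, hlu⟩ : ∃ lu : ℕ → ℝ, ∀ m, lu m = if m < r then α (b' + 1) - m * C₀ else
      α (i₀ + 1) := ⟨_, fun _ => rfl⟩
  have hmC : ∀ m : ℕ, m < r → (m : ℝ) * C₀ + C₀ ≤ r * C₀ := by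
    intro m hm
    have h1 : (m : ℝ) + 1 ≤ r := by exact_mod_cast hm
    have := mul_le_mul_of_nonneg_right h1 hC₀
    linarith
  have hll1 : ∀ m < r, ll (m + 1) ≤ α i₀ - m * C₀ - C₀ := by
    intro m hm
    rw [hll]
    split_ifs with h1
    · push_cast
      linarith
    · have := hmC m hm
      linarith
  have hlu1 : ∀ m < r, lu (m + 1) ≤ α (b' + 1) - m * C₀ - C₀ := by
    intro m hm
    rw [hlu]
    split_ifs with h1
    · push_cast
      linarith
    · have := hmC m hm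
      linarith
  have hllm : ∀ m, ll (m + 1) ≤ ll m := by
    intro m
    by_cases hm : m < r
    · refine (hll1 m hm).trans ?_
      rw [hll, if_pos hm]
      linarith
    · rw [hll, hll, if_neg hm, if_neg (by omega)]
  have hlum : ∀ m, lu (m + 1) ≤ lu m := by
    intro m
    by_cases hm : m < r
    · refine (hlu1 m hm).trans ?_
      rw [hlu, if_pos hm]
      linarith
    · rw [hlu, hlu, if_neg hm, if_neg (by omega)]
  have hll0 : ∀ m, α 0 ≤ ll m := by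
    intro m
    have h0 : α 0 ≤ α a := hmono.monotone (Nat.zero_le a)
    rw [hll]
    split_ifs with h1
    · have := hmC m h1
      linarith
    · exact h0
  have hlu0 : ∀ m, α 0 ≤ lu m := by
    intro m
    rw [hlu]
    split_ifs with h1
    · have := hmC m h1
      linarith
    · exact hmono.monotone (Nat.zero_le _)
  -- the slips
  have hslips : ∀ (lv : ℕ → ℝ) (x₁ : ℝ), (∀ m < r, lv m = x₁ - m * C₀) →
      (∀ m < r, lv (m + 1) ≤ x₁ - m * C₀ - C₀) →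
      (∀ m ∈ Finset.range r, ∀ j, ∀ c ∈ co (F := ZMod p) (lam (Lc n (p * (k * N))) (2 ^ M)) X
        (A (x₁ - m * C₀)) (j + 1), dX X c = 0 →
        ∃ y ∈ co (F := ZMod p) (lam (Lc n (p * (k * N))) (2 ^ M)) X (A (x₁ - m * C₀ - C₀)) j,
          c - Tp (shG n (p * (k * N)) N) c = dX X y) →
      ∀ m < G₂ - G₁, ∀ j, ∀ x ∈ Fr (lv m) j, dX (F := ZMod p) X x = 0 →
        ∃ y ∈ pr (Fr (lv (m + 1))) j,
          x - Tp (F := ZMod p) (shG n (p * (k * N)) N) x = dX (F := ZMod p) X y := by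
    intro lv x₁ e1 e2 e3 m hm j x hx hdx
    rw [← hr] at hm
    cases j with
    | zero =>
      have h1 : x = 0 := by
        have h2 : Fr (lv m) 0 = ⊥ := co_zero _ _ _
        rw [h2, Submodule.mem_bot] at hx
        exact hx
      refine ⟨0, Submodule.zero_mem _, ?_⟩
      rw [h1, map_zero, map_zero, sub_zero]
    | succ j =>
      rw [e1 m hm] at hx
      obtain ⟨y, hy, hxy⟩ := e3 m (Finset.mem_range.2 hm) j x hx hdx
      exact ⟨y, hFmono _ _ j (e2 m hm) hy, hxy⟩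
  have htk := OmB_band hops (fun i => Fr (α i)) (fun i => hsub _)
    (fun i j => hFmono _ _ j (hmono (Nat.lt_succ_self i)).le)
    (Fintype.card (Iz n (p * (k * N))) + 2) (fun j hj => co_big _ _ _ (by omega)) h12
    (T₀ := Tp (F := ZMod p) (shG n (p * (k * N)) N)) (fun x => (Free_dT hXγ x).symm)
    (fun x => by
      rw [Free_ta_apply, Free_ta_apply, map_sub, OmC_comm hγπ])
    (fun x => by
      rw [Free_nu_apply, Free_nu_apply, map_sum]
      exact Finset.sum_congr rfl fun i _ => OmC_comm_pow hγπ i x)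
    (fun i => hFT _) (u := u) (k := k) hkF
    (fun x => by
      rw [Free_pow_p hγu]
      rfl)
    a i₀ (b' + 1) hai hib (fun m => Fr (ll m)) (fun m => Fr (lu m)) (fun m => hsub _)
    (fun m => hsub _) (fun m => hFT _) (fun m => hFT _) (fun m j => hFmono _ _ j (hllm m))
    (fun m j => hFmono _ _ j (hlum m)) (fun m j => hFmono _ _ j (hll0 m))
    (fun m j => hFmono _ _ j (hlu0 m))
    (by
      change Fr (ll 0) = Fr (α i₀)
      rw [hll, if_pos hr0, Nat.cast_zero, zero_mul, sub_zero])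
    (by
      change Fr (ll (G₂ - G₁)) = Fr (α a)
      rw [hll, ← hr, if_neg (lt_irrefl r)])
    (by
      change Fr (lu 0) = Fr (α (b' + 1))
      rw [hlu, if_pos hr0, Nat.cast_zero, zero_mul, sub_zero])
    (by
      change Fr (lu (G₂ - G₁)) = Fr (α (i₀ + 1))
      rw [hlu, ← hr, if_neg (lt_irrefl r)])
    (hslips ll (α i₀) (fun m hm => by rw [hll, if_pos hm]) hll1 hM3)
    (hslips lu (α (b' + 1)) (fun m hm => by rw [hlu, if_pos hm]) hlu1 hM4)
    (fun i h1 h2 h3 => by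
      have hiM : i < M₀ := by omega
      by_cases hPi : ∃ z ∈ W, ClI G₁ G₂ f z ∧ α i < f z ∧ f z < α (i + 1)
      · right
        refine ⟨hinb i hiM hPi, fun k' => ?_⟩
        obtain ⟨z₁, hz₁, e1, e2, e3⟩ := hPi
        have e4 := hM2 i (Finset.mem_range.2 hiM) (fun z hz hzT e5 e6 =>
          hclean i h1 h2 h3 z hz hzT (hall i z₁ hz₁ e1 e2 e3 z hz e5 e6) e5 e6)
        have e5 := loc_band hcy hfo hXπ (hAπ (α i)) (hAπ (α (i + 1))) hXL (hAL (α i))
          (hAL (α (i + 1))) (hAmono _ _ (hmono (Nat.lt_succ_self i)).le) (hAX _)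
          (fun _ => 0) e4 k'
        rwa [Finset.sum_const_zero] at e5
      · left
        exact hout i hiM fun z hz e1 e2 e3 => hPi ⟨z, hz, e1, e2, e3⟩)
    (hinb i₀ hi₀M ⟨z₀, hz₀, hz₀I, by rw [hz₀v]; exact hi₀1, by rw [hz₀v]; exact hi₀2⟩)
  have hpco := pco hcy hfo hXπ (hAπ (α i₀)) (hAπ (α (i₀ + 1))) hXL (hAL _) (hAL _)
    (hAmono _ _ (hmono (Nat.lt_succ_self i₀)).le) (hAX _) hγL hγπ hXγ (hAγ _) (hAγ _) hkF hγu
    (γ' := shG n (k * N) N) (fun a => OmS_red hu1 a) htk j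
  have e2 : fo (shs n p (k * N)) (A (α (i₀ + 1))) = _ := EqM_fo_Lv f R R (α (i₀ + 1)) (2 ^ M)
  have e3 : fo (shs n p (k * N)) (A (α i₀)) = _ := EqM_fo_Lv f R R (α i₀) (2 ^ M)
  rw [e2, e3] at hpco
  exact hM5 j hpco

end Pool.Agent.H75.FU
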