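import Pool.Agent.H75.TH.LevP
import Pool.Agent.H75.FU.OmC
import Pool.Agent.H75.FU.SlipS
import Pool.Agent.H4.FU.Defs

/-!
# Project FULL: Theorem Omega
-/

set_option autoImplicit false

open Module QuadraticForm Filter Topology
open Pool.Agent.H47.QG (Pt action flw oseq Gen ind hess Zn MeanIdx)
open Pool.Agent.H47.ST
open Pool.Agent.H45.AC (Adm ClI SepI shG av)
open Pool.Agent.H75.TH

namespace Pool.Agent.H75.FU

variable {n : ℕ}

/-- the numerical part: the constants -/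
theorem OmL_const (n V p : ℕ) (κ C₀ : ℝ) (hκ : 0 < κ) (hC₀ : 0 ≤ C₀)
    (hp : 2 * ((20 * n + 8) * (C₀ + 2) + 6) < p * κ)
    (hV : (V : ℝ) < κ / (2 * (4 * n + 2) * (C₀ + 2)) * p) (G₁ G₂ : ℝ)
    (hG : G₂ - G₁ ≤ 2 * (6 * n + 2 + (2 * n + 1) * (V + 2))) :
    (G₂ - G₁) * (C₀ + 2) + 6 < p * κ := by
  have hn : (0 : ℝ) ≤ n := Nat.cast_nonneg n
  have h0 : (0 : ℝ) < 4 * n + 2 := by positivity
  have h2 : (0 : ℝ) < C₀ + 2 := by positivity
  have h1 : (4 * n + 2 : ℝ) * (C₀ + 2) * V < κ * p / 2 := by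
    calc (4 * n + 2 : ℝ) * (C₀ + 2) * V
        < (4 * n + 2) * (C₀ + 2) * (κ / (2 * (4 * n + 2) * (C₀ + 2)) * p) :=
          mul_lt_mul_of_pos_left hV (by positivity)
      _ = κ * p / 2 := by field_simp
  have h3 : (G₂ - G₁) * (C₀ + 2) ≤ 2 * (6 * n + 2 + (2 * n + 1) * (V + 2)) * (C₀ + 2) :=
    mul_le_mul_of_nonneg_right hG h2.le
  nlinarith

/-- the shift of the orbit of a point is the orbit if and only if the point is fixed -/
theorem OmL_fix {f : ℕ → Pt n → Pt n} {N r L : ℕ} [NeZero L] (hL : L = r * N)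
    (hfper : ∀ j, f (j + N) = f j) (w : Pt n) (hw : flw f L w = w)
    (h : zw f L w ∘ shG n L N = zw f L w) : flw f N w = w := by
  rw [← LevP_map hL hfper w hw] at h
  have h1 : oseq f L (flw f N w) = oseq f L w := (eK n L).symm.injective h
  have h2 := congrFun h1 0
  have e0 : ∀ u : Pt n, oseq f L u 0 = u := by
    intro u
    change flw f ((0 : Fin L) : ℕ) u = u
    rw [show ((0 : Fin L) : ℕ) = 0 from Fin.val_zero _]
    rfl
  rwa [e0, e0] at h2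

/-- **Theorem Omega.** -/
theorem omega_level {S : ℕ → Pt n → ℝ} {f : ℕ → Pt n → Pt n} (hS : ∀ j, Gen (S j) (f j))
    (hn : 0 < n) {N k : ℕ} [NeZero N] [NeZero (k * N)] (hk : Odd k)
    (hper : ∀ j, S (j + N) = S j) (hfper : ∀ j, f (j + N) = f j)
    (hWr : Pool.Agent.H4.FU.WrongN S f N k)
    (hfin : ∀ m : ℕ, 0 < m → ∃ W : Finset (Pt n),
      (∀ w, flw f (m * (k * N)) w = w ↔ ∃ w' ∈ W, w - w' ∈ Zn n) ∧
      ∀ w ∈ W, ∀ w' ∈ W, w - w' ∈ Zn n → w = w') :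
    ∃ c₁ : ℝ, 0 < c₁ ∧ ∀ᶠ p : ℕ in atTop, p.Prime → ∀ V : ℕ,
      (∀ A : Finset ℕ, (∀ a ∈ A, ∃ w, flw f (p * (k * N)) w = w ∧ flw f (k * N) w ≠ w ∧
        ind S f (p * (k * N)) w = a) → A.card ≤ V) → c₁ * p ≤ V := by
  classical
  have hk0 : 0 < k := hk.pos
  have hKper : ∀ j, S (j + k * N) = S j := LevP_per hper k
  have hKfper : ∀ j, f (j + k * N) = f j := Pool.Agent.H47.QG.IterT_per f N k hfper
  have hN0 : 0 < N := Nat.pos_of_ne_zero (NeZero.ne N)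
  obtain ⟨B, hB0, hB⟩ := Pool.Agent.H45.AC.S_bdd hS hN0 hper
  obtain ⟨W₁, hW₁, hW₁d⟩ := hfin 1 one_pos
  have hW₁' : ∀ w, flw f (k * N) w = w ↔ ∃ w' ∈ W₁, w - w' ∈ Zn n := by
    intro w
    have := hW₁ w
    rwa [one_mul] at this
  obtain ⟨T, e, κ₀, he, hκ₀, hT, hTe, hT0, hTW, hgap⟩ := lev_data hS hKper hKfper W₁ hW₁'
  have hW₁f : ∀ w ∈ W₁, flw f (k * N) w = w := fun w hw =>
    (hW₁' w).2 ⟨w, hw, by rw [sub_self]; exact (Zn n).zero_mem⟩
  set tt : Finset ℝ := W₁.image T with htt_def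
  have htt : ∀ t ∈ tt, ∃ w, flw f (k * N) w = w ∧ T w = t := by
    intro t ht
    obtain ⟨w, hw, rfl⟩ := Finset.mem_image.1 ht
    exact ⟨w, hW₁f w hw, rfl⟩
  have htt' : ∀ w, flw f (k * N) w = w → T w ∈ tt := by
    intro w hw
    obtain ⟨w', hw', he'⟩ := hTW w hw
    rw [← he']
    exact Finset.mem_image_of_mem T hw'
  have htte : ∀ t ∈ tt, 0 ≤ t + n * (k * N : ℕ) := by
    intro t ht
    obtain ⟨w, hw, rfl⟩ := htt t ht
    exact (hT w hw).2.1
  obtain ⟨ε, hε, R₀, q₀, hWr'⟩ := hWr tt.card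
  have hnr : (0 : ℝ) ≤ n := Nat.cast_nonneg n
  have hD : (0 : ℝ) < 2 * n + 1 := by positivity
  obtain ⟨C₀, hC₀0, hC₀⟩ : ∃ C₀ : ℝ, 0 ≤ C₀ ∧ C₀ = 4 * N * B + 3 := ⟨_, by positivity, rfl⟩
  obtain ⟨c₁, hc₁, hc₁a, hc₁b⟩ : ∃ c₁ : ℝ, 0 < c₁ ∧ c₁ ≤ e / (4 * (2 * n + 1)) ∧
      c₁ ≤ κ₀ / (2 * (4 * n + 2) * (C₀ + 2)) :=
    ⟨min (e / (4 * (2 * n + 1))) (κ₀ / (2 * (4 * n + 2) * (C₀ + 2))),
      lt_min (by positivity) (by positivity), min_le_left _ _, min_le_right _ _⟩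
  refine ⟨c₁, hc₁, ?_⟩
  have hev : ∀ᶠ p : ℕ in atTop, (48 * n + 18 : ℝ) < p * e := by
    have h1 : Tendsto (fun p : ℕ => (p : ℝ) * e) atTop atTop :=
      Tendsto.atTop_mul_const he tendsto_natCast_atTop_atTop
    exact h1.eventually_gt_atTop _
  have hev2 : ∀ᶠ p : ℕ in atTop, (2 * ((20 * n + 8) * (C₀ + 2) + 6) : ℝ) < p * κ₀ := by
    have h1 : Tendsto (fun p : ℕ => (p : ℝ) * κ₀) atTop atTop :=
      Tendsto.atTop_mul_const hκ₀ tendsto_natCast_atTop_atTop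
    exact h1.eventually_gt_atTop _
  filter_upwards [hev, hev2, eventually_ge_atTop q₀, eventually_gt_atTop (k + 2)]
    with p hpe hpe2 hpq hpk hpp V hV
  by_contra hc
  push Not at hc
  have hpr : (0 : ℝ) < p := by exact_mod_cast hpp.pos
  have hcV1 : (V : ℝ) < e / (4 * (2 * n + 1)) * p :=
    hc.trans_le (mul_le_mul_of_nonneg_right hc₁a hpr.le)
  have hcV2 : (V : ℝ) < κ₀ / (2 * (4 * n + 2) * (C₀ + 2)) * p :=
    hc.trans_le (mul_le_mul_of_nonneg_right hc₁b hpr.le)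
  have hconst := LevP_const n V p e he hpe hcV1
  set w₀ : ℝ := 6 * n + 2 + (2 * n + 1) * (V + 2) with hw₀
  have hVr : (0 : ℝ) ≤ V := Nat.cast_nonneg V
  have hw₀0 : 0 ≤ w₀ := by positivity
  have : Fact p.Prime := ⟨hpp⟩
  have hne : NeZero (p * (k * N)) := ⟨Nat.mul_ne_zero hpp.ne_zero (NeZero.ne (k * N))⟩
  have hp1 : (1 : ℝ) ≤ p := by exact_mod_cast hpp.one_le
  have hpodd : Odd p := hpp.odd_of_ne_two (by omega)
  have hpnk : ¬ p ∣ k := fun h => by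
    have := Nat.le_of_dvd hk0 h
    omega
  obtain ⟨W, hW, hWd⟩ := hfin p hpp.pos
  have hWf : ∀ w ∈ W, flw f (p * (k * N)) w = w := fun w hw =>
    (hW w).2 ⟨w, hw, by rw [sub_self]; exact (Zn n).zero_mem⟩
  have hfixp : ∀ w, flw f (k * N) w = w → flw f (p * (k * N)) w = w := by
    intro w hw
    rw [Pool.Agent.H47.QG.flw_mul hKfper]
    exact Function.iterate_fixed hw p
  -- the thresholds
  set A : Finset ℕ := (W.filter (fun w => flw f (k * N) w ≠ w)).image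
    (ind S f (p * (k * N))) with hA
  have hAV : A.card ≤ V := hV A (by
    intro a ha
    obtain ⟨w, hw, rfl⟩ := Finset.mem_image.1 ha
    rw [Finset.mem_filter] at hw
    exact ⟨w, hWf w hw.1, hw.2, rfl⟩)
  have hindtr : ∀ w w' : Pt n, w - w' ∈ Zn n →
      ind S f (p * (k * N)) w = ind S f (p * (k * N)) w' := by
    intro w w' h
    rw [← fS_sigNeg hS, ← fS_sigNeg hS,
      (LevP_val hS (p * (k * N)) (fS_per hS (p * (k * N))) h).2]
  have hthr : ∀ t : ℝ, ∃ G : ℕ × ℕ, t ∈ tt →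
      (G.1 = 0 ∨ (G.1 : ℝ) ≤ p * (t + n * (k * N : ℕ)) - 2 * n) ∧
      p * (t + n * (k * N : ℕ)) - w₀ ≤ G.1 ∧ p * (t + n * (k * N : ℕ)) + 4 * n + 1 < G.2 ∧
      (G.2 : ℝ) ≤ p * (t + n * (k * N : ℕ)) + w₀ ∧
      ∀ a ∈ A, ∀ G', (G' = G.1 ∨ G' = G.2) → ¬ (a < G' ∧ G' ≤ a + 2 * n + 1) := by
    intro t
    by_cases ht : t ∈ tt
    · obtain ⟨G₁, G₂, h1, h2, h3, h4, h5⟩ := exists_thr n V A hAV (p * (t + n * (k * N : ℕ)))
        (mul_nonneg hpr.le (htte t ht))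
      refine ⟨(G₁, G₂), fun _ => ⟨h1, ?_, h3, ?_, h5⟩⟩
      · rw [hw₀]
        linarith
      · rw [hw₀]
        linarith
    · exact ⟨(0, 0), fun h => absurd h ht⟩
  choose G hG using hthr
  have hAw : ∀ w, flw f (p * (k * N)) w = w → flw f (k * N) w ≠ w → ∀ t ∈ tt, ∀ G',
      (G' = (G t).1 ∨ G' = (G t).2) →
      ¬ (ind S f (p * (k * N)) w < G' ∧ G' ≤ ind S f (p * (k * N)) w + 2 * n + 1) := by
    intro w hw hw' t ht G' hG'
    obtain ⟨w₁, hw₁, hww⟩ := (hW w).1 hw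
    refine (hG t ht).2.2.2.2 _ ?_ G' hG'
    rw [hindtr w w₁ hww]
    refine Finset.mem_image_of_mem _ (Finset.mem_filter.2 ⟨hw₁, fun h => hw' ?_⟩)
    exact LevP_fix_tr hS (k * N) h (by rw [← neg_sub]; exact (Zn n).neg_mem hww)
  have hε1 : 0 < min ε (1 / 8) := lt_min hε (by norm_num)
  obtain ⟨C, f', ε', Z, hZ, hsm, hpr', hγ, hshp, hsup, hcr, hloc, hgr, hAS, hsn, hcl, hval, hsepv⟩ :=
    lev_pert hS (N := N) (K := k * N) (q := k) rfl hpp hper hfper W hW hWd T e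
      (fun w hw => ⟨(hT w hw).1, (hT w hw).2.2 p hpp.pos⟩) hTe tt htt w₀ hconst
      (fun t => (G t).1) (fun t => (G t).2)
      (fun t ht => ⟨(hG t ht).1, (hG t ht).2.1, (hG t ht).2.2.1, (hG t ht).2.2.2.1⟩) hAw
      (min ε (1 / 8)) hε1
  have hfold : ∀ w, flw f (k * N) w = w →
      zw f (p * (k * N)) w = zw f (k * N) w ∘ shs n p (k * N) := fun w hw =>
    zw_fold p (k * N) hKfper w hw
  -- the restriction of `f'`
  have hnear : Near S (k * N) tt.card ε (fun y => f' (y ∘ shs n p (k * N)) / p) :=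
    fold_near hS hpp hKper hKfper f' tt.card ε hsm hpr' hshp hgr
      (fun y => (hsup y).trans ((min_le_left _ _).trans (le_mul_of_one_le_left hε.le hp1)))
      hcr hloc
  have hsepd : Sepd S f (k * N) (fun y => f' (y ∘ shs n p (k * N)) / p) := by
    intro w w' t t' hw hw' ht ht' hne
    have e1 : T w = t := LevP_unique (hT w hw).1 ht
    have e2 : T w' = t' := LevP_unique (hT w' hw').1 ht'
    have key : f' (zw f (p * (k * N)) w) ≠ f' (zw f (p * (k * N)) w') :=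
      hsepv w w' hw hw' (htt' w hw) (by rw [e1, e2]; exact Ne.symm hne)
    rw [hfold w hw, hfold w' hw'] at key
    intro h
    have h2 : f' (zw f (k * N) w ∘ shs n p (k * N)) / p =
        f' (zw f (k * N) w' ∘ shs n p (k * N)) / p := h
    rw [div_left_inj' hpr.ne'] at h2
    exact key h2
  -- the phase slip property
  obtain ⟨C₂, hC₂⟩ := fS_grad hS (p * (k * N))
  have hslip : Slip (ZMod p) n (p * (k * N)) (shG n (p * (k * N)) N) f' C₀ := by
    rw [hC₀]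
    refine slip_fS (m := p * k) (C := C₂ + tt.card) hS hN0 (hpodd.mul hk)
      (by rw [mul_assoc]) hper hB (ZMod p) hsm hpr' (fun y b => ?_) hγ (fun y => ?_)
    · have h7 := hC₂ y b
      have h8 := hgr y b
      have h9 : fderiv ℝ f' y (Pi.single b 1) - DK n (p * (k * N)) y b =
          (fderiv ℝ (fS S (p * (k * N))) y (Pi.single b 1) - DK n (p * (k * N)) y b) +
          (fderiv ℝ f' y (Pi.single b 1) -
            fderiv ℝ (fS S (p * (k * N))) y (Pi.single b 1)) := by ring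
      rw [h9]
      exact (abs_add_le _ _).trans (add_le_add h7 h8)
    · exact (hsup y).trans ((min_le_right _ _).trans (by norm_num))
  -- the core
  have hcore : ∀ (t : ℝ) (w : Pt n), ∃ R₁ : ℝ, t ∈ tt → w ∈ W → flw f (k * N) w = w →
      T w = t → (∀ w', flw f N w' = w' →
        f' (zw f (p * (k * N)) w') ≠ f' (zw f (p * (k * N)) w)) →
      ∀ R ≥ R₁, ∃ b₁ b₂ : ℝ, b₁ < f' (zw f (p * (k * N)) w) ∧ f' (zw f (p * (k * N)) w) < b₂ ∧
      (∀ y : Iz n (k * N) → ℝ, fderiv ℝ f' (y ∘ shs n p (k * N)) = 0 →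
        b₁ ≤ f' (y ∘ shs n p (k * N)) → f' (y ∘ shs n p (k * N)) ≤ b₂ →
        f' (y ∘ shs n p (k * N)) = f' (zw f (p * (k * N)) w)) ∧
      ∀ j, ∀ᶠ M : ℕ in atTop, HR (ZMod p) (lam (Lc n (k * N)) (2 ^ M))
        (Lv (fun t => p * qK n (k * N) t) (fun t => p * QK n (k * N) t)
          (fun y : Iz n (k * N) → ℝ => f' (y ∘ shs n p (k * N))) R R b₂ (2 ^ M))
        (Lv (fun t => p * qK n (k * N) t) (fun t => p * QK n (k * N) t)
          (fun y : Iz n (k * N) → ℝ => f' (y ∘ shs n p (k * N))) R R b₁ (2 ^ M)) j 0 := by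
    intro t w
    by_cases hyp : t ∈ tt ∧ w ∈ W ∧ flw f (k * N) w = w ∧ T w = t ∧
      (∀ w', flw f N w' = w' → f' (zw f (p * (k * N)) w') ≠ f' (zw f (p * (k * N)) w))
    swap
    · exact ⟨0, fun h1 h2 h3 h4 h5 => absurd ⟨h1, h2, h3, h4, h5⟩ hyp⟩
    obtain ⟨ht, hwW, hw, hwt, hwn⟩ := hyp
    obtain ⟨hg1, hg2, hg3, hg4, -⟩ := hG t ht
    have h12 : (G t).1 < (G t).2 := by
      have : ((G t).1 : ℝ) < (G t).2 := by
        rcases hg1 with h | h
        · rw [h, Nat.cast_zero]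
          have : 0 ≤ (p : ℝ) * (t + n * (k * N : ℕ)) := mul_nonneg hpr.le (htte t ht)
          linarith
        · linarith
      exact_mod_cast this
    obtain ⟨hAd, hSe⟩ := hAS t ht
    obtain ⟨R₁, hR₁⟩ := OM_core hk0 hpnk h12 hAd hSe hγ hC₀0 hslip
      (f' (zw f (p * (k * N)) w))
      ⟨zw f (p * (k * N)) w, (hZ _).2 ⟨w, hwW, rfl⟩, by
        rw [hfold w hw]
        exact (shp_fix _).2 ⟨_, rfl⟩, (hcl t ht w hw).2 hwt, rfl⟩
      (by
        intro z hz hzs hzI hzv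
        obtain ⟨y, rfl⟩ := (shp_fix z).1 hzs
        have hcy : fderiv ℝ (fS S (p * (k * N))) (y ∘ shs n p (k * N)) = 0 := by
          rw [← hcr]
          exact (hAd.crit _).2 ⟨_, hz, 0, (Lc n (p * (k * N))).zero_mem, by
            rw [Win_rl_zero, add_zero]⟩
        obtain ⟨w₂, hw₂, hw₂p, -, hyw⟩ := GrowA_fold hS hpp.two_le hKfper y hcy
        rw [hyw] at hzI hzv ⊢
        have hT2 : T w₂ = t := (hcl t ht w₂ hw₂).1 hzI
        rw [hval t ht w₂ hw₂ hT2, hval t ht w hw hwt, hfold w₂ hw₂, hfold w hw,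
          fS_fold p (k * N) hKper, fS_fold p (k * N) hKper] at hzv ⊢
        have h3 : (p : ℝ) * fS S (k * N) (zw f (k * N) w₂) + ε' t -
            (p * fS S (k * N) (zw f (k * N) w) + ε' t) =
            p * (fS S (k * N) (zw f (k * N) w₂) - fS S (k * N) (zw f (k * N) w)) := by ring
        rw [h3, abs_mul, abs_of_pos hpr]
        refine (OmL_const n V p κ₀ C₀ hκ₀ hC₀0 hpe2 hcV2 _ _ ?_).trans_le
          (mul_le_mul_of_nonneg_left (hgap w₂ w hw₂ hw fun h => hzv (by rw [h])) hpr.le)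
        rw [← hw₀]
        linarith)
      (by
        intro z hz hzv hzf
        obtain ⟨w₂, hw₂, rfl⟩ := (hZ z).1 hz
        have h1 := OmL_fix (N := N) (r := p * k) (L := p * (k * N)) (by rw [mul_assoc]) hfper w₂
          (hWf w₂ hw₂) hzf
        exact hwn w₂ h1 hzv)
    exact ⟨R₁, fun _ _ _ _ _ => hR₁⟩
  choose R₁ hR₁ using hcore
  obtain ⟨R, hR⟩ := Finset.exists_le (insert ((p : ℝ) * R₀)
    ((tt ×ˢ W).image fun x => R₁ x.1 x.2))
  have hRp : (p : ℝ) * R₀ ≤ R := hR _ (Finset.mem_insert_self _ _)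
  obtain ⟨w, hw, hwn, hal⟩ := hWr' p hpq _ hnear hsepd (R / p) (by
    rw [ge_iff_le, le_div_iff₀ hpr, mul_comm]
    exact hRp)
  -- a representative
  obtain ⟨w', hw', hww⟩ := (hW w).1 (hfixp w hw)
  have hfw' : flw f (k * N) w' = w' := LevP_fix_tr hS (k * N) hw hww
  have hval' : f' (zw f (p * (k * N)) w) = f' (zw f (p * (k * N)) w') :=
    (LevP_val hS (p * (k * N)) hpr' hww).1
  have hfixK : ∀ u, flw f N u = u → flw f (k * N) u = u := by
    intro u hu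
    rw [Pool.Agent.H47.QG.flw_mul hfper]
    exact Function.iterate_fixed hu k
  have hwn' : ∀ u, flw f N u = u →
      f' (zw f (p * (k * N)) u) ≠ f' (zw f (p * (k * N)) w') := by
    intro u hu h
    refine hwn u hu ?_
    change f' (zw f (k * N) u ∘ shs n p (k * N)) / p = f' (zw f (k * N) w ∘ shs n p (k * N)) / p
    rw [← hfold u (hfixK u hu), ← hfold w hw, h, hval']
  have hRt : R₁ (T w') w' ≤ R := hR _ (Finset.mem_insert_of_mem
    (Finset.mem_image.2 ⟨(T w', w'), Finset.mk_mem_product (htt' w' hfw') hw', rfl⟩))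
  obtain ⟨b₁, b₂, hb1, hb2, hb3, hb4⟩ := hR₁ (T w') w' (htt' w' hfw') hw' hfw' rfl hwn' R hRt
  have hvw : (p : ℝ) * (f' (zw f (k * N) w ∘ shs n p (k * N)) / p) =
      f' (zw f (p * (k * N)) w') := by
    rw [← hval', hfold w hw]
    field_simp
  have h := fold_alive hS hKper hKfper f' hcr R _ hal
  rw [hvw] at h
  obtain ⟨j, hj⟩ := h b₁ b₂ hb1 hb2 hb3
  obtain ⟨M, hM1, hM2⟩ := (hj.and_eventually (hb4 j)).exists
  exact hM1 hM2

end Pool.Agent.H75.FU
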